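import Mathlib
import Pool.Agent.Lib.MP_68c422_nt.Limit

set_option autoImplicit false

open scoped Pointwise
open Filter

namespace Pool.Agent.Results.MP_68c422_nt.Constant

/-- Eighteen residues modulo 130. -/
def S : Fin 18 → ZMod 130 :=
  ![0, 6, 13, 22, 24, 34, 38, 39, 42, 65, 88, 91, 92, 96, 106, 108, 117, 124]

set_option maxRecDepth 100000 in
theorem S_cover : ∀ h : ZMod 130, ∃ i j, i ≠ j ∧ S i + S j = h := by
  decide

/-- Infinitely many `q` have a basis of size at most `(18/√130) √q + C = 1.5787… √q + C`. -/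
theorem result :
    ∃ C : ℝ, ∃ᶠ q : ℕ+ in atTop, ∃ A : Finset (ZMod q), A + A = Finset.univ ∧
      (A.card : ℝ) ≤ 18 / Real.sqrt 130 * Real.sqrt q + C := by
  have h := Pool.MP_68c422_nt.Tr.amplify 130 18 (by norm_num) S S_cover
  norm_num at h
  exact h

end Pool.Agent.Results.MP_68c422_nt.Constant
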