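import Mathlib
import Pool.Agent.Lib.MP_68c422_nt.Dich39

set_option autoImplicit false

namespace Pool.Agent.Results.MP_68c422_nt.Dichotomy

open Finset

/-- A basis whose size is near the counting bound is almost symmetric, or a positive proportion
of the square of its size is carried by sums with many, but not too many, representations. -/
theorem result (η : ℝ) (hη : 0 < η) (N : ℕ) : ∃ ε : ℝ, 0 < ε ∧ ∃ q₀ : ℕ,
    ∀ (G : Type) [AddCommGroup G] [Fintype G] [DecidableEq G] (A : Finset G),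
    (∀ s : G, ∃ a ∈ A, ∃ b ∈ A, a + b = s) → q₀ ≤ Fintype.card G →
    (A.card : ℝ) ^ 2 ≤ (2 + ε) * Fintype.card G →
    (∃ s : G, (1 - η) * (A.card : ℝ) ≤ ((A.filter fun a => s - a ∈ A).card : ℝ)) ∨
    η / 2 * (A.card : ℝ) ^ 2 ≤
      ∑ s ∈ univ.filter (fun s : G => N ≤ (A.filter fun a => s - a ∈ A).card ∧
        N * (A.filter fun a => s - a ∈ A).card ≤ A.card),
        ((A.filter fun a => s - a ∈ A).card : ℝ) ^ 2 := by
  obtain ⟨ε, hε, q₀, H⟩ := Pool.MP_68c422_nt.Rep39.dichotomy η hη N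
  exact ⟨ε, hε, q₀, fun G _ _ _ A hA hq hk => H G A hA hq hk⟩

end Pool.Agent.Results.MP_68c422_nt.Dichotomy
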