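import Mathlib
import Pool.Agent.Lib.MP_68c422_nt.Limit

set_option autoImplicit false

open scoped Pointwise
open Filter

namespace Pool.Agent.Results.MP_68c422_nt.FiniteCovers

/-- Q1 with `√2` replaced by an arbitrary real `c` is equivalent to a question about single finite
objects: for every `ε > 0` there must be one `m ≥ 1` and one family `r` of `k < (c + ε) √m`
residues mod `m` (repetitions allowed) such that every residue is a sum of two members with
distinct indices. So every single finite family gives bases of all the sizes `(k/√m + o(1)) √q` for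
infinitely many `q`, and the least constant is the infimum of `k/√m` over all finite families. -/
theorem result (c : ℝ) :
    (∀ ε : ℝ, 0 < ε → ∃ᶠ q : ℕ+ in atTop, ∃ A : Finset (ZMod q), A + A = Finset.univ ∧
      |((A.card : ℝ) / Real.sqrt q - c)| < ε) ↔
    (∀ ε : ℝ, 0 < ε → ∃ m : ℕ, 0 < m ∧ ∃ (k : ℕ) (r : Fin k → ZMod m),
      (∀ h : ZMod m, ∃ i j, i ≠ j ∧ r i + r j = h) ∧ (k : ℝ) / Real.sqrt m < c + ε) :=
  Pool.MP_68c422_nt.Tr.attain_iff c

end Pool.Agent.Results.MP_68c422_nt.FiniteCovers
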