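import Mathlib
import Pool.Agent.Lib.MP_68c422_nt.Cov39

set_option autoImplicit false

namespace Pool.Agent.Results.MP_68c422_nt.SevenEighths

open scoped Pointwise

/-- Infinitely many `q` have a set `A` with `|A| = √(2q + 4)` whose sums cover seven eighths
of the group, up to `|A| / 4` elements. -/
theorem result : ∀ m : ℕ, ∃ q : ℕ, m ≤ q ∧ 0 < q ∧ ∃ A : Finset (ZMod q),
    A.card ^ 2 = 2 * q + 4 ∧ 7 * q ≤ 8 * (A + A).card + 2 * A.card :=
  Pool.MP_68c422_nt.Cov39.coverage

end Pool.Agent.Results.MP_68c422_nt.SevenEighths
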